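import Pool.Agent.E8helper59.TS.Stm

/-!
# Project TS, piece `S_HALF`: the half difference body is a centrally symmetric convex body
-/

set_option autoImplicit false
open MeasureTheory Set Filter Topology
open scoped Pointwise ENNReal

namespace Pool.Agent.E8helper5.TS
open Pool.Agent.E8helper59.TS

theorem t_HALF : S_HALF := by
  intro D hc hv hi
  refine ⟨?_, ?_, ?_, ?_⟩
  · have h : Half D = (fun q : (ℝ × ℝ) × (ℝ × ℝ) => (1/2 : ℝ) • (q.1 - q.2)) '' (D ×ˢ D) := by
      ext p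
      constructor
      · rintro ⟨a, ha, b, hb, rfl⟩
        exact ⟨(a, b), ⟨ha, hb⟩, rfl⟩
      · rintro ⟨⟨a, b⟩, ⟨ha, hb⟩, rfl⟩
        exact ⟨a, ha, b, hb, rfl⟩
    rw [h]
    exact (hc.prod hc).image (by fun_prop)
  · rintro p ⟨a, ha, b, hb, rfl⟩ q ⟨c, hc', d, hd, rfl⟩ s t hs ht hst
    refine ⟨s • a + t • c, hv ha hc' hs ht hst, s • b + t • d, hv hb hd hs ht hst, ?_⟩
    module
  · obtain ⟨d, hd⟩ := hi
    have hdD : d ∈ D := interior_subset hd
    refine ⟨0, ?_⟩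
    rw [mem_interior]
    refine ⟨(fun x : ℝ × ℝ => (2:ℝ) • x + d) ⁻¹' interior D, ?_, ?_, ?_⟩
    · intro x hx
      refine ⟨(2:ℝ) • x + d, interior_subset hx, d, hdD, ?_⟩
      module
    · exact isOpen_interior.preimage (by fun_prop)
    · simpa using hd
  · rintro p ⟨a, ha, b, hb, rfl⟩
    refine ⟨b, hb, a, ha, ?_⟩
    module

end Pool.Agent.E8helper5.TS
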